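import Pool.Agent.H93HD.Main

/-!
# An arbitrary connected regular graph times a large Hamilton-decomposable graph

Let `G` be any connected `2k`-regular graph and let `H` be a graph of even order which is decomposable
into `k` Hamiltonian cycles, with `|H| ≥ 16 k² (|G| + 4)²`. Then `G □ H` is decomposable into `2k`
Hamiltonian cycles. No connectivity beyond connectedness and no Hamiltonicity of `G` is assumed.
-/

namespace Pool.Agent.Results.MP_8634e8_co.ArbitraryTimesDecomposable

open H93HD

theorem result {V W : Type*} [Fintype V] [Fintype W] [DecidableEq V] [DecidableEq W]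
    (G : SimpleGraph V) [DecidableRel G.Adj] (H : SimpleGraph W) (k : ℕ) (hk : 1 ≤ k)
    (hG : G.Connected) (hreg : G.IsRegularOfDegree (2 * k)) (hH : HamDecomp H k)
    (heven : Even (Fintype.card W))
    (hbig : 16 * k ^ 2 * (Fintype.card V + 4) ^ 2 ≤ Fintype.card W) :
    HamDecomp (G □ H) (2 * k) := by
  refine main G H k hk hG (fun v => ?_) hH heven hbig
  rw [← hreg v, ← SimpleGraph.card_neighborSet_eq_degree, Set.ncard_eq_toFinset_card',
    Set.toFinset_card]

end Pool.Agent.Results.MP_8634e8_co.ArbitraryTimesDecomposable
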