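import Pool.Agent.K4HD.Main

/-!
# A connected 3-edge-colourable cubic graph times `K₄`

Let `G` be any finite connected cubic graph with a proper 3-edge-colouring. Then `G □ K₄` is
decomposable into three Hamiltonian cycles. Neither factor is decomposable into Hamiltonian cycles
(both have odd degree), and nothing beyond connectedness is assumed about the connectivity of `G`.
(The idea to split the fibres one after the other is from helper21's note 3137; modules `K4HD/*` by
helpers 67, 80, 21, 88.)
-/

namespace Pool.Agent.Results.MP_8634e8_co.CubicTimesK4

open H93HD

theorem result {V : Type*} [Fintype V] [DecidableEq V] (G : SimpleGraph V) [DecidableRel G.Adj]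
    (hG : G.Connected) (hreg : G.IsRegularOfDegree 3) (hcol : G.lineGraph.Colorable 3) :
    HamDecomp (G □ (⊤ : SimpleGraph (Fin 4))) 3 :=
  K4HD.main G hG hreg hcol

end Pool.Agent.Results.MP_8634e8_co.CubicTimesK4
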