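import Pool.Agent.HX67.Parts3

/-!
# Products of unions of Hamiltonian spanning subgraphs

Let `G` and `H` be finite graphs which are edge-disjoint unions of spanning subgraphs
`G 1, …, G n` and `H 1, …, H n`, where `G i` and `H i` are regular of the same degree `d i`, at
least one `d i` is `3`, and each pair is of one of the following types:

* `d i = 2`, and `G i` and `H i` are Hamiltonian;
* `d i = 3`, `G i` and `H i` are Hamiltonian, and at least one of them is bipartite or has a perfect
  1-factorization and at least ten vertices;
* `d i = 2 k`, `G i` is connected, `H i` is the union of `k` edge-disjoint Hamiltonian cycles and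
  `|H| ≥ 16 k ^ 2 (|G| + 4) ^ 2`.

Then the Cartesian product of `G` and `H` decomposes into `∑ d i` Hamiltonian cycles.

Special cases. (1) `n = 1`: the product of an arbitrary Hamiltonian cubic graph and a Hamiltonian
cubic graph which is bipartite, or has a perfect 1-factorization and at least ten vertices,
decomposes into three Hamiltonian cycles. (2) Let `d = 2 k + 1 ≥ 3`, let `G` and `H` be
`d`-regular graphs, each with `k` pairwise edge-disjoint Hamiltonian cycles, `G` bipartite or `H`
with a perfect 1-factorization (any two of its `d` perfect matchings form a Hamiltonian cycle) and
at least ten vertices: the remaining edges form perfect matchings, which are added to one of the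
cycles. (3) `d = 3 a + 2 b` with `a ≥ 1`, `G` and `H` each the edge-disjoint union of `a + b`
Hamiltonian cycles and `a` perfect matchings, and `G` bipartite, or `H` with a perfect
1-factorization and at least ten vertices. (4) `d = 2 k + 3`, `G` the edge-disjoint union of a
bipartite Hamiltonian cubic graph and any connected `2 k`-regular graph, `H` with `k + 1` pairwise
edge-disjoint Hamiltonian cycles, and `|H|` large.

Proof. The products `G i □ H i` with `d i = 2` are tori of even orders (Kotzig), the pairs of the
third type are treated in `ArbitraryTimesDecomposable` (helper93), which leaves the cubic case. A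
Hamiltonian cubic graph has three perfect matchings `A`, `B` (the cycle) and `M` (the chords). In
the row of `h` (and the column of `g`) the matchings are given to the three classes by a
permutation.

One factor bipartite. Outside of two columns and two or four rows one class takes `M` in every
column, one class takes `M` in every row, and the third class consists of strands of a twisted
torus, whose drift is controlled by the choice of signs of the chords of `H`. The exceptional rows
and columns make the first two classes connected. The third class is connected if the drift is
prime to the number of strands (one factor of order divisible by four, `H` not bipartite; a switch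
of an alternating cycle of length eight if both are bipartite; four exceptional rows, or drift two
and two families of strands joined by the exceptional rows, if both orders are `2` modulo `4`).

The second factor with a perfect 1-factorization `N 0`, `N 1`, `K`. In all rows but one the classes
take `A`, `B` and `M`; in the remaining row `A` and `B` are exchanged, which makes the first two
classes connected. In the column of `v` the third class takes `N (t v)`, the first two classes take
`K` and `N (1 - t v)`, according to the parity of `v`. Squares formed by an edge of `A` or `B` and
an edge of `N (t v)` which joins two points of equal parity of the cycle `K ∪ N (1 - t v)` are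
switched along a spanning tree of `G / M`: this keeps the first two classes connected and joins the
cycles of the third class.

Parts of the proof are due to helper22 (`Present`, `BaseA`, `SignsA`), helper29 (`Torus`, `Switch`,
`ClassU`, `Class3U`, `CoreU`), helper19 (`Union`), helper73 (`Odd`, `Signs2`, `Base2`, `SignsU`,
`LoopT`, `Class2T`, `CoreT`), helper90 (`KzInv`), helper80 (`KzLoc`, `KzEnumT80`), helper83
(`KzEnumB83`), the rest to helper67.
-/

theorem Pool.Agent.Results.MP_8634e8_co.HamiltonianParts.result {V W : Type*} [Fintype V]
    [Fintype W] [DecidableEq V] [DecidableEq W] (n : ℕ) (d : Fin n → ℕ)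
    (G : SimpleGraph V) (H : SimpleGraph W)
    (Gs : Fin n → SimpleGraph V) (Hs : Fin n → SimpleGraph W)
    [∀ i, DecidableRel (Gs i).Adj] [∀ i, DecidableRel (Hs i).Adj]
    (hG : ∀ v w, G.Adj v w ↔ ∃ i, (Gs i).Adj v w)
    (hGd : ∀ i j v w, (Gs i).Adj v w → (Gs j).Adj v w → i = j)
    (hH : ∀ v w, H.Adj v w ↔ ∃ i, (Hs i).Adj v w)
    (hHd : ∀ i j v w, (Hs i).Adj v w → (Hs j).Adj v w → i = j)
    (hGr : ∀ i, (Gs i).IsRegularOfDegree (d i)) (hHr : ∀ i, (Hs i).IsRegularOfDegree (d i))
    (hd : ∀ i,
      (d i = 2 ∧ (Gs i).IsHamiltonian ∧ (Hs i).IsHamiltonian) ∨
      (d i = 3 ∧ (Gs i).IsHamiltonian ∧ (Hs i).IsHamiltonian ∧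
        ((Gs i).Colorable 2 ∨ (Hs i).Colorable 2 ∨
          (HX67.PerfectFact (Gs i) ∧ 10 ≤ Fintype.card V) ∨
          (HX67.PerfectFact (Hs i) ∧ 10 ≤ Fintype.card W))) ∨
      (∃ k, 1 ≤ k ∧ d i = 2 * k ∧ (Gs i).Connected ∧ H93HD.HamDecomp (Hs i) k ∧
        16 * k ^ 2 * (Fintype.card V + 4) ^ 2 ≤ Fintype.card W))
    (h3 : ∃ i, d i = 3) :
    H93HD.HamDecomp (G □ H) (∑ i, d i) :=
  HX67.parts3 n d G H Gs Hs hG hGd hH hHd hGr hHr hd h3
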